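import Pool.Agent.H753Z.SG.Main

set_option autoImplicit false

namespace Pool.Agent.Results.MP_967f73_nt.AParityGoldbach

/-- Every sufficiently large even integer is a sum of two positive integers, each of which has an
odd number of prime factors counted with multiplicity (Liouville value `-1`). -/
theorem result : ∃ N₀ : ℕ, ∀ N : ℕ, N₀ ≤ N → Even N → ∃ a b : ℕ, 0 < a ∧ 0 < b ∧ a + b = N ∧
    Odd (ArithmeticFunction.cardFactors a) ∧ Odd (ArithmeticFunction.cardFactors b) :=
  Pool.Agent.H753Z.SG.main

end Pool.Agent.Results.MP_967f73_nt.AParityGoldbach
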